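import Pool.Agent.H606.OS.Stm

/-! Project OS (helper606), task B3: the lower half implies the upper half and that there are few close
pairs. -/

set_option autoImplicit false

open MeasureTheory Filter Topology Finset
open Pool.Agent.H606.OS

namespace Pool.Agent.H955.OS.B3

/-! ### The density -/

theorem sq_le (u : ℝ) : (Real.sin (Real.pi * u) / (Real.pi * u)) ^ 2 ≤ 1 := by
  rw [div_pow]
  by_cases h : Real.pi * u = 0
  · rw [h]
    simp
  · rw [div_le_one (by positivity)]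
    exact sq_le_sq.2 Real.abs_sin_le_abs

theorem Fg_nonneg (u : ℝ) : 0 ≤ Fg u := by
  unfold Fg
  linarith [sq_le u]

theorem Fg_le (u : ℝ) : Fg u ≤ 1 := by
  unfold Fg
  linarith [sq_nonneg (Real.sin (Real.pi * u) / (Real.pi * u))]

theorem Fg_meas : Measurable Fg := by
  unfold Fg
  fun_prop

theorem Fg_int (a b : ℝ) : IntervalIntegrable Fg volume a b := by
  refine (intervalIntegrable_const (c := (1 : ℝ))).mono_fun Fg_meas.aestronglyMeasurable ?_
  refine Filter.Eventually.of_forall fun u => ?_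
  beta_reduce
  rw [Real.norm_of_nonneg (Fg_nonneg u), norm_one]
  exact Fg_le u

theorem Fg_split (a b : ℝ) (ha : 0 ≤ a) :
    (∫ u in (0 : ℝ)..b, Fg u) - a ≤ ∫ u in a..b, Fg u ∧
    (∫ u in a..b, Fg u) ≤ ∫ u in (0 : ℝ)..b, Fg u := by
  have h1 := intervalIntegral.integral_add_adjacent_intervals (Fg_int 0 a) (Fg_int a b)
  have h2 : 0 ≤ ∫ u in (0 : ℝ)..a, Fg u :=
    intervalIntegral.integral_nonneg ha fun u _ => Fg_nonneg u
  have h3 : (∫ u in (0 : ℝ)..a, Fg u) ≤ ∫ u in (0 : ℝ)..a, (1 : ℝ) :=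
    intervalIntegral.integral_mono_on ha (Fg_int 0 a) intervalIntegrable_const fun u _ => Fg_le u
  rw [intervalIntegral.integral_const, smul_eq_mul, mul_one, sub_zero] at h3
  constructor <;> linarith

/-! ### Finite sums -/

section fin

variable {N : ℕ} (x : Fin N → ℝ)

open Classical in
theorem pair_split (K : ℝ → ℝ) (hK : ∀ u, K (-u) = K u) :
    ∑ j, ∑ k, K (x j - x k) =
      ((univ : Finset (Fin N × Fin N)).filter fun q => x q.1 = x q.2).card * K 0 +
      2 * ∑ q ∈ (univ : Finset (Fin N × Fin N)).filter (fun q => 0 < x q.1 - x q.2),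
        K (x q.1 - x q.2) := by
  rw [← Fintype.sum_prod_type' (fun j k => K (x j - x k))]
  have h1 : ∑ q ∈ (univ : Finset (Fin N × Fin N)).filter (fun q => x q.1 - x q.2 < 0),
      K (x q.1 - x q.2) =
      ∑ q ∈ (univ : Finset (Fin N × Fin N)).filter (fun q => 0 < x q.1 - x q.2),
        K (x q.1 - x q.2) := by
    refine Finset.sum_bij (fun q _ => q.swap) ?_ ?_ ?_ ?_
    · intro q hq
      rw [mem_filter] at hq ⊢
      refine ⟨mem_univ _, ?_⟩
      rw [Prod.fst_swap, Prod.snd_swap]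
      linarith [hq.2]
    · intro q _ q' _ h
      exact Prod.swap_injective h
    · intro q hq
      refine ⟨q.swap, ?_, Prod.swap_swap q⟩
      rw [mem_filter] at hq ⊢
      refine ⟨mem_univ _, ?_⟩
      rw [Prod.fst_swap, Prod.snd_swap]
      linarith [hq.2]
    · intro q _
      rw [Prod.fst_swap, Prod.snd_swap, ← hK, neg_sub]
  have h2 : ∑ q ∈ (univ : Finset (Fin N × Fin N)).filter (fun q => x q.1 = x q.2),
      K (x q.1 - x q.2) =
      ((univ : Finset (Fin N × Fin N)).filter fun q => x q.1 = x q.2).card * K 0 := by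
    rw [← nsmul_eq_mul, ← sum_const]
    refine sum_congr rfl fun q hq => ?_
    rw [(mem_filter.1 hq).2, sub_self]
  rw [← sum_filter_add_sum_filter_not (univ : Finset (Fin N × Fin N)) (fun q => x q.1 = x q.2), h2]
  congr 1
  rw [← sum_filter_add_sum_filter_not ((univ : Finset (Fin N × Fin N)).filter fun q => ¬ x q.1 = x q.2)
    (fun q => 0 < x q.1 - x q.2), filter_filter, filter_filter, two_mul]
  congr 1
  · refine sum_congr ?_ fun _ _ => rfl
    ext q
    rw [mem_filter, mem_filter]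
    refine and_congr_right fun _ => ⟨fun h => h.2, fun h => ⟨fun h' => ?_, h⟩⟩
    rw [h', sub_self] at h
    exact lt_irrefl _ h
  · rw [← h1]
    refine sum_congr ?_ fun _ _ => rfl
    ext q
    rw [mem_filter, mem_filter]
    refine and_congr_right fun _ => ⟨fun h => ?_, fun h => ⟨fun h' => ?_, not_lt.2 h.le⟩⟩
    · exact lt_of_le_of_ne (not_lt.1 h.2) fun h' => h.1 (sub_eq_zero.1 h')
    · rw [h', sub_self] at h
      exact lt_irrefl _ h

open Classical in
/-- the number of the pairs with difference in `(0, A)`, divided by `R` -/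
noncomputable def nA (R A : ℝ) : ℝ :=
  (((univ : Finset (Fin N × Fin N)).filter fun q => 0 < x q.1 - x q.2 ∧ x q.1 - x q.2 < A).card : ℝ) / R

theorem nA_nonneg {R A : ℝ} (hR : 0 < R) : 0 ≤ nA x R A := div_nonneg (Nat.cast_nonneg _) hR.le

theorem dg_eq (R : ℝ) [DecidablePred fun q : Fin N × Fin N => x q.1 = x q.2] : dg x R =
    (((univ : Finset (Fin N × Fin N)).filter fun q => x q.1 = x q.2).card : ℝ) / R := by
  unfold dg
  rw [← Set.ncard_coe_finset, coe_filter]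
  simp

theorem p0_le {R A β : ℝ} (hR : 0 < R) : p0 x R β ≤ nA x R A + pc x R A β := by
  classical
  unfold p0 nA pc
  rw [← add_div]
  refine div_le_div_of_nonneg_right ?_ hR.le
  have h1 : ((univ : Finset (Fin N × Fin N)).filter fun q => 0 < x q.1 - x q.2 ∧ x q.1 - x q.2 < A).card =
      {q : Fin N × Fin N | 0 < x q.1 - x q.2 ∧ x q.1 - x q.2 < A}.ncard := by
    rw [← Set.ncard_coe_finset, coe_filter]
    simp
  rw [h1, ← Nat.cast_add, Nat.cast_le]
  refine le_trans (Set.ncard_le_ncard ?_ (Set.toFinite _)) (Set.ncard_union_le _ _)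
  intro q hq
  rcases lt_or_ge (x q.1 - x q.2) A with h | h
  · exact Or.inl ⟨hq.1, h⟩
  · exact Or.inr ⟨h, hq.2⟩

theorem pc_le_p0 {R α β : ℝ} (hR : 0 < R) (hα : 0 < α) : pc x R α β ≤ p0 x R β := by
  unfold p0 pc
  refine div_le_div_of_nonneg_right ?_ hR.le
  rw [Nat.cast_le]
  exact Set.ncard_le_ncard (fun q hq => ⟨lt_of_lt_of_le hα hq.1, hq.2⟩) (Set.toFinite _)

theorem det (he : ∀ u, kk (-u) = kk u) (h0 : kk 0 = 2 / 3)
    (ha : AntitoneOn kk (Set.Ici 0)) {R A δ : ℝ} (hR : 0 < R) (hA : 0 < A) (hδ : 0 < δ) :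
    2 / 3 * dg x R + 2 * (kk (2 * Real.pi * δ * A) * nA x R A) +
      2 * ks x R A (fun u => kk (2 * Real.pi * δ * u)) ≤ ssum x R δ := by
  classical
  unfold ssum
  have h1 := pair_split x (fun u => kk (2 * Real.pi * δ * u)) (fun u => by
    rw [mul_neg, he])
  beta_reduce at h1
  rw [h1, mul_zero, h0, dg_eq]
  unfold nA ks
  have h2 : kk (2 * Real.pi * δ * A) *
      ((univ : Finset (Fin N × Fin N)).filter fun q => 0 < x q.1 - x q.2 ∧ x q.1 - x q.2 < A).card +
      ∑ q ∈ (Finset.univ : Finset (Fin N × Fin N)).filter (fun q => A ≤ x q.1 - x q.2),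
        kk (2 * Real.pi * δ * (x q.1 - x q.2)) ≤
      ∑ q ∈ (univ : Finset (Fin N × Fin N)).filter (fun q => 0 < x q.1 - x q.2),
        kk (2 * Real.pi * δ * (x q.1 - x q.2)) := by
    rw [← sum_filter_add_sum_filter_not ((univ : Finset (Fin N × Fin N)).filter fun q =>
      0 < x q.1 - x q.2) (fun q => x q.1 - x q.2 < A), filter_filter, filter_filter]
    refine add_le_add ?_ (le_of_eq ?_)
    · rw [mul_comm, ← nsmul_eq_mul, ← sum_const]
      refine sum_le_sum fun q hq => ?_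
      obtain ⟨-, h3, h4⟩ := mem_filter.1 hq
      have hc : 0 < 2 * Real.pi * δ := by positivity
      exact ha (Set.mem_Ici.2 (mul_pos hc h3).le) (Set.mem_Ici.2 (mul_pos hc hA).le)
        (mul_le_mul_of_nonneg_left h4.le hc.le)
    · refine sum_congr ?_ fun _ _ => rfl
      ext q
      rw [mem_filter, mem_filter]
      exact and_congr_right fun _ => ⟨fun h => ⟨lt_of_lt_of_le hA h, not_lt.2 h⟩, fun h => not_lt.1 h.2⟩
  have e : ∀ a b c d : ℝ, 2 / 3 * (a / R) + 2 * (b * (c / R)) + 2 * (d / R) =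
      (a * (2 / 3) + 2 * (b * c + d)) / R := by
    intro a b c d
    ring
  rw [e]
  refine div_le_div_of_nonneg_right ?_ hR.le
  linarith

end fin

/-! ### The main inequality -/

variable {C1 : ℝ}

theorem ka_scale (c u : ℝ) (hc : 0 < c) : ka (c * u) ≤ (1 + 1 / c ^ 2) * ka u := by
  unfold ka
  rw [mul_one_div, div_le_div_iff₀ (by positivity) (by positivity)]
  have h1 : (1 + 1 / c ^ 2) * (1 + (c * u) ^ 2) = 1 + u ^ 2 + (c ^ 2 * u ^ 2 + 1 / c ^ 2) := by
    field_simp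
    ring
  rw [h1, one_mul]
  have h2 : 0 ≤ c ^ 2 * u ^ 2 + 1 / c ^ 2 := by positivity
  linarith

theorem int_split {A δ : ℝ} (hA : 0 < A) (h1 : ∀ x, kk x ≤ 1)
    (hi : IntegrableOn (fun u => kk (2 * Real.pi * δ * u) * Fg u) (Set.Ioi 0)) :
    (∫ u in Set.Ioi (0 : ℝ), kk (2 * Real.pi * δ * u) * Fg u) ≤
      A + ∫ u in Set.Ioi A, kk (2 * Real.pi * δ * u) * Fg u := by
  rw [← Set.Ioc_union_Ioi_eq_Ioi hA.le] at hi ⊢
  rw [setIntegral_union Set.Ioc_disjoint_Ioi_same measurableSet_Ioi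
    (hi.mono_set Set.subset_union_left) (hi.mono_set Set.subset_union_right)]
  refine add_le_add_left ?_ _
  have h2 : (∫ u in Set.Ioc 0 A, kk (2 * Real.pi * δ * u) * Fg u) ≤ ∫ u in Set.Ioc 0 A, (1 : ℝ) := by
    refine setIntegral_mono_on (hi.mono_set Set.subset_union_left) (integrableOn_const (by simp))
      measurableSet_Ioc fun u _ => ?_
    exact mul_le_one₀ (h1 _) (Fg_nonneg u) (Fg_le u)
  refine h2.trans (le_of_eq ?_)
  rw [setIntegral_const, smul_eq_mul, mul_one]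
  simp [hA.le]

/-- **The main inequality.** -/
theorem main (hKK : S_KK) (hGUE : S_GUE) (hLO : S_LO) (hB2 : S_B2) (D : Cg C1) (l : Filter ℝ)
    (hC1 : 0 < C1) (hl : l ≤ atTop) (h : ∀ A, 0 < A → LoA D l A) (A : ℝ) (hA : 0 < A)
    (α β κ δ : ℝ) (hα : A ≤ α) (hβ : α < β) (hδ : 0 < δ) (hδ1 : δ ≤ 1 / 12) (hκ : 0 ≤ κ)
    (hk : ∀ u ∈ Set.Icc α β, κ ≤ kk (2 * Real.pi * δ * u)) (ε : ℝ) (hε : 0 < ε) :
    ∀ᶠ T in l, kk (2 * Real.pi * δ * A) * nA (D.x T) (D.R T) A +
      κ * (pc (D.x T) (D.R T) α β - ∫ u in α..β, Fg u) ≤ A + C1 * δ ^ 2 + 2 * ε := by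
  obtain ⟨C, hC, hcont, h0, he, hn, ha, hb, hq, -⟩ := hKK
  have h1 : ∀ x, kk x ≤ 1 := by
    intro x
    have h2 : ∀ x, 0 ≤ x → kk x ≤ 1 := fun x hx => by
      have := ha (Set.mem_Ici.2 le_rfl) (Set.mem_Ici.2 hx) hx
      linarith
    rcases le_total 0 x with hx | hx
    · exact h2 x hx
    · rw [← he]
      exact h2 _ (neg_nonneg.2 hx)
  obtain ⟨hi, hg⟩ := hGUE δ hδ (by linarith)
  have hc : 0 < 2 * Real.pi * δ := by positivity
  have e1 := hLO C1 D l hC1 hl A hA (h A hA) (fun u => kk (2 * Real.pi * δ * u))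
    (C * (1 + 1 / (2 * Real.pi * δ) ^ 2)) (hcont.comp (continuous_const.mul continuous_id))
    (fun u _ => ⟨hn _, (hb _).trans (by
      rw [mul_assoc C]
      exact mul_le_mul_of_nonneg_left (ka_scale _ u hc) (zero_le_one.trans hC))⟩) α β κ hα hβ hκ hk ε hε
  have e2 := (D.n1 1 δ hδ hδ1).filter_mono hl
  have e3 := D.hR.filter_mono hl
  have e4 := (hB2 C1 D l hC1 hl h).eventually (lt_mem_nhds (show 1 - ε < 1 by linarith))
  have hs := int_split (δ := δ) hA h1 hi
  filter_upwards [e1, e2, e3, e4] with T t1 t2 t3 t4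
  have t5 := det (D.x T) he h0 ha t3 hA hδ
  rw [sum_range_one, pow_zero, div_one, Nat.cast_one, Real.sqrt_one,
    div_le_iff₀ (by positivity)] at t2
  nlinarith [t1, t2, t4, t5, hs, hg]

/-- `kk` near the origin -/
theorem kk_ge (hKK : S_KK) {x : ℝ} (hx : 0 ≤ x) (hx1 : x ≤ 1 / 2) : 1 / 3 ≤ kk x := by
  obtain ⟨C, hC, hcont, h0, he, hn, ha, hb, hq, -⟩ := hKK
  have h1 := hq x
  rw [h0] at h1
  nlinarith

theorem pi_small {δ u β : ℝ} (hδ : 0 < δ) (hu : 0 ≤ u) (hub : u ≤ β) (h : 8 * (δ * β) ≤ 1 / 2) :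
    0 ≤ 2 * Real.pi * δ * u ∧ 2 * Real.pi * δ * u ≤ 1 / 2 := by
  have h1 := Real.pi_pos
  have h2 := Real.pi_le_four
  refine ⟨by positivity, ?_⟩
  have h3 : δ * u ≤ δ * β := mul_le_mul_of_nonneg_left hub hδ.le
  have h4 : 0 ≤ δ * u := by positivity
  nlinarith

/-- the upper half -/
theorem upper (hKK : S_KK) (hGUE : S_GUE) (hLO : S_LO) (hB2 : S_B2) (D : Cg C1) (l : Filter ℝ)
    (hC1 : 0 < C1) (hl : l ≤ atTop) (h : ∀ A, 0 < A → LoA D l A) (A : ℝ) (hA : 0 < A) :
    UpA D l A := by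
  intro α β hα hβ ε hε
  have hα0 : 0 < α := lt_of_lt_of_le hA hα
  have hβ0 : 0 < β := hα0.trans hβ
  -- the parameters
  set A' : ℝ := min A (ε / 12) with hA'
  have hA'0 : 0 < A' := lt_min hA (by positivity)
  set δ : ℝ := min (1 / 12) (min (1 / (16 * β)) (ε / (12 * C1))) with hδ
  have hδ0 : 0 < δ := lt_min (by norm_num) (lt_min (by positivity) (by positivity))
  have hδ1 : δ ≤ 1 / 12 := min_le_left _ _
  have hδ2 : δ ≤ 1 / (16 * β) := (min_le_right _ _).trans (min_le_left _ _)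
  have hδ3 : δ ≤ ε / (12 * C1) := (min_le_right _ _).trans (min_le_right _ _)
  have hδβ : 8 * (δ * β) ≤ 1 / 2 := by
    rw [le_div_iff₀ (by positivity)] at hδ2
    linarith
  have hC1δ : C1 * δ ^ 2 ≤ ε / 12 := by
    rw [le_div_iff₀ (by positivity)] at hδ3
    have : δ ^ 2 ≤ δ := by nlinarith
    nlinarith
  have hk : 1 / 3 ≤ kk (2 * Real.pi * δ * β) :=
    kk_ge hKK (pi_small hδ0 hβ0.le le_rfl hδβ).1 (pi_small hδ0 hβ0.le le_rfl hδβ).2
  have hm := main hKK hGUE hLO hB2 D l hC1 hl h A' hA'0 α β (kk (2 * Real.pi * δ * β)) δ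
    ((min_le_left _ _).trans hα) hβ hδ0 hδ1 (by linarith) (fun u hu => by
      obtain ⟨C, hC, hcont, h0, he, hn, ha, hb, hq, -⟩ := hKK
      have hc : 0 < 2 * Real.pi * δ := by positivity
      exact ha (Set.mem_Ici.2 (mul_pos hc (hα0.trans_le hu.1)).le)
        (Set.mem_Ici.2 (mul_pos hc hβ0).le) (mul_le_mul_of_nonneg_left hu.2 hc.le)) (ε / 24)
    (by positivity)
  have hR := D.hR.filter_mono hl
  filter_upwards [hm, hR] with T t1 t2
  have h1 := nA_nonneg (D.x T) (A := A') t2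
  obtain ⟨C, hC, hcont, h0, he, hn, ha, hb, hq, -⟩ := hKK
  have h2 := mul_nonneg (hn (2 * Real.pi * δ * A')) h1
  have h3 : A' ≤ ε / 12 := min_le_right _ _
  by_contra hcon
  push Not at hcon
  have h4 : ε < pc (D.x T) (D.R T) α β - ∫ u in α..β, Fg u := by linarith
  have h5 : 1 / 3 * ε < kk (2 * Real.pi * δ * β) *
      (pc (D.x T) (D.R T) α β - ∫ u in α..β, Fg u) :=
    mul_lt_mul' hk h4 hε.le (by linarith)
  linarith

/-- few close pairs -/
theorem close (hKK : S_KK) (hGUE : S_GUE) (hLO : S_LO) (hB2 : S_B2) (D : Cg C1) (l : Filter ℝ)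
    (hC1 : 0 < C1) (hl : l ≤ atTop) (h : ∀ A, 0 < A → LoA D l A) (ε : ℝ) (hε : 0 < ε) (A : ℝ)
    (hA : 0 < A) (hAε : A ≤ ε / 12) (hA1 : A ≤ 1) :
    ∀ᶠ T in l, nA (D.x T) (D.R T) A ≤ ε := by
  set δ : ℝ := min (1 / 16) (ε / (12 * C1)) with hδ
  have hδ0 : 0 < δ := lt_min (by norm_num) (by positivity)
  have hδ1 : δ ≤ 1 / 16 := min_le_left _ _
  have hδ3 : δ ≤ ε / (12 * C1) := min_le_right _ _
  have hδβ : 8 * (δ * 1) ≤ 1 / 2 := by linarith
  have hC1δ : C1 * δ ^ 2 ≤ ε / 12 := by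
    rw [le_div_iff₀ (by positivity)] at hδ3
    have : δ ^ 2 ≤ δ := by nlinarith
    nlinarith
  have hk : 1 / 3 ≤ kk (2 * Real.pi * δ * A) :=
    kk_ge hKK (pi_small hδ0 hA.le hA1 hδβ).1 (pi_small hδ0 hA.le hA1 hδβ).2
  have hm := main hKK hGUE hLO hB2 D l hC1 hl h A hA A (A + 1) 0 δ le_rfl (by linarith) hδ0
    (by linarith) le_rfl (fun u hu => by
      obtain ⟨C, hC, hcont, h0, he, hn, ha, hb, hq, -⟩ := hKK
      exact hn _) (ε / 24) (by positivity)
  have hR := D.hR.filter_mono hl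
  filter_upwards [hm, hR] with T t1 t2
  have h1 := nA_nonneg (D.x T) (A := A) t2
  rw [zero_mul, add_zero] at t1
  have h2 : 1 / 3 * nA (D.x T) (D.R T) A ≤ kk (2 * Real.pi * δ * A) * nA (D.x T) (D.R T) A :=
    mul_le_mul_of_nonneg_right hk h1
  linarith

theorem t_B3 (hKK : S_KK) (hGUE : S_GUE) (hLO : S_LO) (hB2 : S_B2) : S_B3 := by
  intro C1 D l hC1 hl h
  have hU : ∀ A : ℝ, 0 < A → UpA D l A := fun A hA => upper hKK hGUE hLO hB2 D l hC1 hl h A hA
  refine ⟨hU, fun β hβ => ?_⟩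
  rw [tendsto_order]
  have hR := D.hR.filter_mono hl
  constructor
  · intro a ha
    set ε : ℝ := (∫ u in (0 : ℝ)..β, Fg u) - a with hε
    have hε0 : 0 < ε := by linarith
    set α : ℝ := min (β / 2) (ε / 4) with hα
    have hα0 : 0 < α := lt_min (by positivity) (by positivity)
    have h1 := h α hα0 α β le_rfl (lt_of_le_of_lt (min_le_left _ _) (by linarith)) (ε / 4)
      (by positivity)
    filter_upwards [h1, hR] with T t1 t2
    have h2 := pc_le_p0 (D.x T) (β := β) t2 hα0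
    have h3 := (Fg_split α β hα0.le).1
    have h4 : α ≤ ε / 4 := min_le_right _ _
    linarith
  · intro a ha
    set ε : ℝ := a - ∫ u in (0 : ℝ)..β, Fg u with hε
    have hε0 : 0 < ε := by linarith
    set A : ℝ := min (min (β / 2) 1) (ε / 4 / 12) with hA
    have hA0 : 0 < A := lt_min (lt_min (by positivity) one_pos) (by positivity)
    have hAβ : A < β := lt_of_le_of_lt ((min_le_left _ _).trans (min_le_left _ _)) (by linarith)
    have h1 := close hKK hGUE hLO hB2 D l hC1 hl h (ε / 4) (by positivity) A hA0 (min_le_right _ _)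
      ((min_le_left _ _).trans (min_le_right _ _))
    have h2 := hU A hA0 A β le_rfl hAβ (ε / 4) (by positivity)
    filter_upwards [h1, h2, hR] with T t1 t2 t3
    have h3 := p0_le (D.x T) (A := A) (β := β) t3
    have h4 := (Fg_split A β hA0.le).2
    linarith

end Pool.Agent.H955.OS.B3
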